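import Mathlib

/-!
Nori's conjecture on the detection of cycles by restriction.

Let `w` be a class in `CH^i(X)`, with rational coefficients, whose restriction to `CH_0(T̃)` vanishes
for every subvariety `T` of dimension `i` of the smooth projective variety `X`.  The conjecture says
that `w = 0`.  We prove it in two cases.

* `i = 2`, and `X` is arbitrary.  It even suffices that `w` vanishes on the smooth surfaces `T ⊂ X`
  which are obtained from `X` by taking ample divisors successively.
* `i ≥ 3`, and `CH_j(X)` is supported on a closed subset of dimension `≤ i` for `0 ≤ j ≤ i - 3`.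
  For `i = 3` this means that `CH_0(X)` is supported on a closed subset of dimension `≤ 3`.

Hence the conjecture holds for the varieties of dimension `≤ 3`, and for the fourfolds `X` such that
`CH_0(X)` is supported in dimension `≤ 3`, for instance for the uniruled ones.  The first open case is
`i = 3` for the other fourfolds.

Proof for `i = 2`, by induction on `n = dim X`; the case `n = 2` is clear.  Let `n ≥ 3`, and let
`f : X̃ → ℙ¹` be a very general Lefschetz pencil of members `Y_t` of the linear system of a
sufficiently ample line bundle; here `σ : X̃ → X` is the blowing up of the base locus `B`.  By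
induction `w` vanishes on all smooth `Y_t`, hence on the generic one, and `σ^* w` is a sum of classes in
the images of the divisor class groups of finitely many members.  By the theorems of
Noether-Lefschetz and Grothendieck-Lefschetz the divisor class group of every member `Y_t`, smooth or
with one node, is generated by restrictions of divisors of `X`.  So `σ^* w = σ^* A · F`, where `F` is the
class of the fibres of `f`, and `A` is a divisor class on `X`.  Restrict this to the exceptional divisor
`E → B` and push it forward to `B`: the left hand side becomes zero, the right hand side becomes the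
restriction of `A` to `B`.  So `A = 0` and `w = 0`.

For `i ≥ 3` the decomposition of the diagonal of `X` reduces the assertion to the case `i = 2`,
since correspondences preserve the classes which vanish on all subvarieties of the relevant
dimension.

The facts and the published theorems used are the fields of the structures below.
-/

noncomputable section

namespace Pool.Agent.Results.MP_c78f90_ag.CodimensionTwo

/-- Smooth projective varieties and their Chow groups. -/
structure Chow where
  /-- The smooth, projective, irreducible varieties over `ℂ`. -/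
  Var : Type
  /-- The dimension. -/
  dim : Var → ℕ
  /-- `CH i X` is the Chow group `CH^i(X)` of cycles of codimension `i` modulo rational equivalence,
  with rational coefficients. -/
  CH : ℕ → Var → Type
  [grp : ∀ i X, AddCommGroup (CH i X)]
  [mod : ∀ i X, Module ℚ (CH i X)]
  /-- The irreducible closed subvarieties `T` of `X`. -/
  Sub : Var → Type
  /-- A resolution of singularities `T̃` of `T`; here `T̃ = T` if `T` is smooth. -/
  res : ∀ {X}, Sub X → Var
  /-- The restriction `CH^i(X) → CH^i(T̃)`: the inverse image under `T̃ → X`. -/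
  rest : ∀ {X} (i : ℕ) (T : Sub X), CH i X →ₗ[ℚ] CH i (res T)
  /-- The direct image `CH^a(T̃) → CH^b(X)` under `T̃ → X`, where `b - a = dim X - dim T`. -/
  push : ∀ {X} (T : Sub X) (a b : ℕ), a + dim X = b + dim (res T) → CH a (res T) →ₗ[ℚ] CH b X
  /-- There are smooth irreducible varieties `X = X₀ ⊃ X₁ ⊃ … ⊃ X_k = T` such that `X_{j+1}` is an ample
  divisor of `X_j`; this includes `T = X`. -/
  sec : ∀ {X}, Sub X → Prop
  /-- `f : CH^i(X) → CH^j(Y)` is induced by a correspondence, that is, by an algebraic cycle `Γ` on
  `X × Y` with rational coefficients: `f(w) = q_*(p^* w · Γ)`. -/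
  IsCor : ∀ {X Y i j}, (CH i X →ₗ[ℚ] CH j Y) → Prop

attribute [instance] Chow.grp Chow.mod

namespace Chow

variable (V : Chow)

/-- The assertion of the conjecture for the classes in `CH^i(X)`. -/
def Nori (i : ℕ) (X : V.Var) : Prop :=
  ∀ w : V.CH i X, (∀ T : V.Sub X, V.dim (V.res T) = i → V.rest i T w = 0) → w = 0

/-- `CH_j(X)` is supported on a closed subset of dimension `≤ v`: there are finitely many
subvarieties `T` of dimension `≤ v` such that the images of the groups `CH_j(T̃)` generate
`CH_j(X)`. -/
def Supp (j v : ℕ) (X : V.Var) : Prop :=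
  ∃ s : Finset (V.Sub X), (∀ T ∈ s, V.dim (V.res T) ≤ v) ∧
    ∀ b, b + j = V.dim X → ∀ z : V.CH b X,
      z ∈ ⨆ T ∈ s, ⨆ a, ⨆ h : a + V.dim X = b + V.dim (V.res T), LinearMap.range (V.push T a b h)

end Chow

/-- A Lefschetz pencil `(Y_t)` of ample divisors of `X`, where `n = dim X ≥ 3`; its members are
irreducible, and they have at most one ordinary double point. -/
structure Pencil (V : Chow) (X : V.Var) where
  /-- The points of `ℙ¹`. -/
  Pt : Type
  /-- `Y_t` is smooth. -/
  smooth : Pt → Prop
  /-- The members `Y_t`. -/
  mem : Pt → V.Sub X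
  dim_mem : ∀ t, V.dim (V.res (mem t)) + 1 = V.dim X
  /-- If `Y_t` is smooth, a subvariety `S` of `Y_t` is a subvariety `T` of `X`. -/
  sec_mem : ∀ t, smooth t → ∀ S : V.Sub (V.res (mem t)), V.sec S →
    ∃ T : V.Sub X, V.sec T ∧ V.dim (V.res T) = V.dim (V.res S) ∧
      ∀ w : V.CH 2 X, V.rest 2 T w = 0 → V.rest 2 S (V.rest 2 (mem t) w) = 0
  /-- The blowing up `X̃` of `X` in the base locus, with its morphism `f : X̃ → ℙ¹`. -/
  tot : V.Var
  /-- The inverse image `σ^*` for `σ : X̃ → X`. -/
  pull : V.CH 2 X →ₗ[ℚ] V.CH 2 tot
  /-- `σ_* σ^* w = w`. -/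
  pull_inj : ∀ w, pull w = 0 → w = 0
  /-- The divisor class group `CH_{n-2}(Y_t)` of `Y_t`, with rational coefficients. -/
  Cl : Pt → Type
  [grp : ∀ t, AddCommGroup (Cl t)]
  [mod : ∀ t, Module ℚ (Cl t)]
  /-- The direct image under the inclusion of `Y_t = f⁻¹(t)` in `X̃`. -/
  inc : ∀ t, Cl t →ₗ[ℚ] V.CH 2 tot
  /-- The restriction of the divisor classes of `X` to `Y_t`. -/
  cut : ∀ t, V.CH 1 X →ₗ[ℚ] Cl t
  /-- `A ↦ σ^* A · F`, where `F` is the class of the fibres of `f`. -/
  fib : V.CH 1 X →ₗ[ℚ] V.CH 2 tot
  /-- The projection formula. -/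
  inc_cut : ∀ t A, inc t (cut t A) = fib A
  /-- The base locus `B`; it is smooth and irreducible, of dimension `n - 2 ≥ 1`. -/
  base : V.Sub X
  /-- `γ ↦ q_*(γ|_E)`, where `E = σ⁻¹(B)` and `q : E → B` is the projection. -/
  bas : V.CH 2 tot →ₗ[ℚ] V.CH 1 (V.res base)
  /-- `(σ^* w)|_E = q^*(w|_B)`, and `q_* q^* = 0`. -/
  bas_pull : ∀ w, bas (pull w) = 0
  /-- `E = B × ℙ¹`, and the restriction of `F` to `E` is the class of `B × {t}`. -/
  bas_fib : ∀ A, bas (fib A) = V.rest 1 base A
  /-- If `w` vanishes on the smooth `Y_t` then it vanishes on the generic fibre of `f`: let `k` be a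
  countable field over which `w` and the pencil are defined; if `t` is transcendental over `k`, then `Y_t`
  is isomorphic, as a scheme over `k`, to the geometric generic fibre, and `w|_{Y_t}` corresponds to
  the restriction of `w`.  Hence `σ^* w` comes from finitely many fibres, by the localisation
  sequence. -/
  loc : ∀ w : V.CH 2 X, (∀ t, smooth t → V.rest 2 (mem t) w = 0) →
    pull w ∈ ⨆ t, LinearMap.range (inc t)

attribute [instance] Pencil.grp Pencil.mod

/-- Facts and published theorems. -/
structure Theory extends Chow where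
  ch_zero : ∀ i X (w : CH i X), dim X < i → w = 0
  /-- `T = X`. -/
  self : ∀ X, ∃ T : Sub X, sec T ∧ dim (res T) = dim X ∧ ∀ i (w : CH i X), rest i T w = 0 → w = 0
  cor_rest : ∀ X Y i j (f : CH i X →ₗ[ℚ] CH j Y), IsCor f → ∀ S : Sub Y, IsCor (rest j S ∘ₗ f)
  /-- Let `f` be induced by the cycle `∑ m_k Z_k` on `X × Y`, where `j = dim Y`.  Then `dim Z_k = i` and
  `f(w) = ∑ m_k q_{k*}(p_k^* w)`, where `p_k` and `q_k` are the projections of a resolution `Z̃_k` of `Z_k`
  to `X` and `Y`.  Let `S = p_k(Z_k)`.  If `dim S < i` then `p_k^* w = 0`, since `p_k` factors, after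
  blowing up `Z̃_k`, through `S̃`.  If `dim S = i` then `p_k^* w = 0` since `w|_{S̃} = 0`. -/
  cor_zero : ∀ X Y i (f : CH i X →ₗ[ℚ] CH (dim Y) Y), IsCor f →
    ∀ w, (∀ S : Sub X, dim (res S) = i → rest i S w = 0) → f w = 0
  /-- The class of a multiple of `X` is determined by its restriction to a point. -/
  degree : ∀ X (w : CH 0 X), (∀ T : Sub X, dim (res T) = 0 → rest 0 T w = 0) → w = 0
  /-- Weil: a divisor class which vanishes on all curves is zero. -/
  weil : ∀ X (w : CH 1 X), (∀ T : Sub X, dim (res T) = 1 → rest 1 T w = 0) → w = 0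
  /-- The very general pencils in the linear system of a sufficiently ample line bundle `L`.

  The first property: every divisor class of a member `Y_t`, smooth or with one node, comes from
  `X`.  For `dim X = 3` this is the Noether-Lefschetz theorem in the form that the Noether-Lefschetz
  locus in `|L|` has codimension `≥ 2` and that a very general surface with a node satisfies the
  theorem (Green, Voisin for `ℙ³`; Joshi; Moishezon, applied to the blowing up of `X` at the node).
  For `dim X ≥ 4` it is the Grothendieck-Lefschetz theorem for `Y_t ⊂ X`, or, if `Y_t` has the node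
  `x`, for its strict transform in the blowing up of `X` at `x`, which is an ample divisor.

  The second property: the restriction of divisor classes to the base locus is injective.  It is
  the Lefschetz theorem for `dim X ≥ 4`, and a theorem of Weil for `dim X = 3`. -/
  pencil : ∀ X, 3 ≤ dim X → ∃ P : Pencil toChow X,
    (∀ t, Function.Surjective (P.cut t)) ∧ ∀ A, rest 1 P.base A = 0 → A = 0
  /-- The decomposition of the diagonal (Bloch, Srinivas; Paranjape; Laterveer).  If `CH_j(X)` is
  supported on a closed subset `V_j` of dimension `≤ v` for all `j < c`, then a positive multiple of the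
  diagonal of `X` is the sum of cycles `Γ_j` on `V_j × X`, for `j < c`, and of a cycle `Γ` on `X × W`, where
  `W ⊂ X` has codimension `c`.  So, for `w` in `CH^{i+c}(X)`, a multiple of `w` is the sum of the classes
  `Γ_{j*} w`, which depend only on the restrictions of `w` to subvarieties of `V_j`, and of direct
  images of classes `f(w)` in `CH^i(W̃)`, where `f` is induced by a correspondence. -/
  decomp : ∀ X c v, (∀ j < c, toChow.Supp j v X) → ∀ i (w : CH (i + c) X),
    (∀ T : Sub X, dim (res T) ≤ v → rest (i + c) T w = 0) →
    (∀ W (f : CH (i + c) X →ₗ[ℚ] CH i W), IsCor f → f w = 0) → w = 0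

namespace Theory

variable {V : Theory}

/-- The case `i = 2`. -/
theorem codim_two (n : ℕ) : ∀ X : V.Var, V.dim X = n → 2 ≤ n → ∀ w : V.CH 2 X,
    (∀ T : V.Sub X, V.sec T → V.dim (V.res T) = 2 → V.rest 2 T w = 0) → w = 0 := by
  induction n with
  | zero => intro X _ h; omega
  | succ n ih =>
    intro X hX hn w hw
    by_cases h2 : n = 1
    · obtain ⟨T, hT, hd, hi⟩ := V.self X
      exact hi 2 w (hw T hT (by omega))
    · obtain ⟨P, hcut, hbase⟩ := V.pencil X (by omega)
      have h0 : ∀ t, P.smooth t → V.rest 2 (P.mem t) w = 0 := by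
        intro t ht
        have hd := P.dim_mem t
        refine ih (V.res (P.mem t)) (by omega) (by omega) _ ?_
        intro S hS hd2
        obtain ⟨T, hT, hTd, hTw⟩ := P.sec_mem t ht S hS
        exact hTw w (hw T hT (hTd.trans hd2))
      have h1 : (⨆ t, LinearMap.range (P.inc t)) ≤ LinearMap.range P.fib := by
        refine iSup_le ?_
        rintro t _ ⟨z, rfl⟩
        obtain ⟨A, rfl⟩ := hcut t z
        exact ⟨A, (P.inc_cut t A).symm⟩
      obtain ⟨A, hA⟩ := h1 (P.loc w h0)
      have h3 : V.rest 1 P.base A = 0 := by
        rw [← P.bas_fib A, hA, P.bas_pull w]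
      have h4 := hbase A h3
      rw [h4, map_zero] at hA
      exact P.pull_inj w hA.symm

theorem nori_two (X : V.Var) : V.Nori 2 X := by
  intro w hw
  by_cases h : V.dim X < 2
  · exact V.ch_zero 2 X w h
  · exact codim_two (V.dim X) X rfl (by omega) w fun T _ hT => hw T hT

theorem nori_dim {i : ℕ} {X : V.Var} (h : V.dim X ≤ i) : V.Nori i X := by
  intro w hw
  rcases h.lt_or_eq with h | h
  · exact V.ch_zero i X w h
  · obtain ⟨T, -, hd, hi⟩ := V.self X
    exact hi i w (hw T (hd.trans h))

/-- Correspondences preserve the classes which vanish on all subvarieties of the relevant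
dimension. -/
theorem cor_nori {X Y : V.Var} {i j : ℕ} {f : V.CH i X →ₗ[ℚ] V.CH j Y} (hf : V.IsCor f)
    {w : V.CH i X} (hw : ∀ S : V.Sub X, V.dim (V.res S) = i → V.rest i S w = 0) :
    ∀ T : V.Sub Y, V.dim (V.res T) = j → V.rest j T (f w) = 0 := by
  rintro T rfl
  exact V.cor_zero X (V.res T) i (V.rest _ T ∘ₗ f) (V.cor_rest X Y i _ f hf T) w hw

theorem nori_supp (X : V.Var) (c : ℕ) (h : ∀ j < c, V.Supp j (2 + c) X) : V.Nori (2 + c) X := by
  intro w hw
  refine V.decomp X c (2 + c) h 2 w ?_ ?_
  · intro T hT
    rcases hT.lt_or_eq with hT | hT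
    · exact V.ch_zero _ _ _ hT
    · exact hw T hT
  · intro W f hf
    exact nori_two W (f w) (cor_nori hf hw)

end Theory

/-- Let `X` be a smooth projective variety over `ℂ`, and `w` a class in `CH^i(X)` with rational
coefficients.

1. Let `i = 2`, and `dim X ≥ 2`.  If `w` vanishes on all smooth surfaces `T ⊂ X` which are obtained from
`X` by taking ample divisors successively, then `w = 0`.
2. Suppose that `CH_j(X)` is supported on a closed subset of dimension `≤ i` for `0 ≤ j ≤ i - 3`; this is
no condition if `i ≤ 2`.  If `w` vanishes on all subvarieties of dimension `i`, then `w = 0`.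
3. If `dim X ≤ 3`, and `w` vanishes on all subvarieties of dimension `i`, then `w = 0`. -/
theorem result (V : Theory) :
    (∀ (X : V.Var) (w : V.CH 2 X), 2 ≤ V.dim X →
      (∀ T : V.Sub X, V.sec T → V.dim (V.res T) = 2 → V.rest 2 T w = 0) → w = 0) ∧
    (∀ (X : V.Var) (i : ℕ), (∀ j, j + 3 ≤ i → V.Supp j i X) → V.Nori i X) ∧
    ∀ (X : V.Var) (i : ℕ), V.dim X ≤ 3 → V.Nori i X := by
  have h : ∀ (X : V.Var) (i : ℕ), (∀ j, j + 3 ≤ i → V.Supp j i X) → V.Nori i X := by
    intro X i hi
    rcases Nat.lt_or_ge i 2 with h | h
    · rcases (show i = 0 ∨ i = 1 by omega) with rfl | rfl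
      · exact V.degree X
      · exact V.weil X
    · obtain ⟨c, rfl⟩ := Nat.exists_eq_add_of_le h
      exact Theory.nori_supp X c fun j hj => hi j (by omega)
  refine ⟨fun X w hX hw => Theory.codim_two (V.dim X) X rfl hX w hw, h, ?_⟩
  intro X i hX
  rcases Nat.lt_or_ge i 3 with hi | hi
  · exact h X i fun j hj => by omega
  · exact Theory.nori_dim (hX.trans hi)

end Pool.Agent.Results.MP_c78f90_ag.CodimensionTwo
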